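import Mathlib
import Pool.Agent.H39.Form2

set_option autoImplicit false

namespace Pool.Agent.Results.MP_8f9e48_lc.UnaryComplete

/-- A context-free grammar without erasing productions. Nonterminal letters are `Sum.inl n`,
terminal letters are `Sum.inr n`; the two alphabets are finite and nonempty. -/
structure Grammar where
  N : Finset ℕ
  T : Finset ℕ
  P : Finset (ℕ × List (ℕ ⊕ ℕ))
  S : ℕ
  start_mem : S ∈ N
  T_nonempty : T.Nonempty
  wf : ∀ p ∈ P, p.1 ∈ N ∧ p.2 ≠ [] ∧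
    (∀ A, Sum.inl A ∈ p.2 → A ∈ N) ∧ (∀ a, Sum.inr a ∈ p.2 → a ∈ T)

/-- One rewriting step. -/
def Grammar.Step (G : Grammar) (u v : List (ℕ ⊕ ℕ)) : Prop :=
  ∃ p ∈ G.P, ∃ x y : List (ℕ ⊕ ℕ), u = x ++ [Sum.inl p.1] ++ y ∧ v = x ++ p.2 ++ y

/-- The generated language. -/
def Grammar.lang (G : Grammar) : Set (List ℕ) :=
  {w | Relation.ReflTransGen G.Step [Sum.inl G.S] (w.map Sum.inr)}

/-- `G'` is an interpretation of `G`. -/
def IsInterp (G' G : Grammar) : Prop :=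
  ∃ σN σT : ℕ → Finset ℕ,
    (∀ A ∈ G.N, (σN A).Nonempty) ∧ (∀ a ∈ G.T, (σT a).Nonempty) ∧
    (∀ A ∈ G.N, ∀ B ∈ G.N, A ≠ B → Disjoint (σN A) (σN B)) ∧
    (∀ a ∈ G.T, ∀ b ∈ G.T, a ≠ b → Disjoint (σT a) (σT b)) ∧
    G'.N = G.N.biUnion σN ∧ G'.T = G.T.biUnion σT ∧ G'.S ∈ σN G.S ∧
    ∀ p' ∈ G'.P, ∃ p ∈ G.P, p'.1 ∈ σN p.1 ∧
      List.Forall₂ (Sum.LiftRel (fun B A => B ∈ σN A) (fun b a => b ∈ σT a)) p'.2 p.2

/-- The grammatical family of `G`. -/
def family (G : Grammar) : Set (Set (List ℕ)) := {L | ∃ G', IsInterp G' G ∧ L = G'.lang}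

/-- The `a`-restriction. -/
def restrict (G : Grammar) (a : ℕ) : Grammar where
  N := G.N
  T := G.T
  P := G.P.filter fun p => ∀ x ∈ p.2, x.isRight = true → x = Sum.inr a
  S := G.S
  start_mem := G.start_mem
  T_nonempty := G.T_nonempty
  wf := fun p hp => G.wf p (Finset.mem_filter.1 hp).1

/-- Unary-complete families. -/
def IsUnaryComplete (F : Set (Set (List ℕ))) : Prop :=
  (∃ G, family G = F) ∧
    ∀ G : Grammar, G.T.card ≠ 1 → family G = F → ∃ a ∈ G.T, family (restrict G a) = F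

open Pool.Agent.H39.CF

theorem lang_eq (G : Grammar) :
    G.lang = {w | Der (fun A β => (A, β) ∈ G.P) [Sum.inl G.S] w} := by
  have : G.Step = Step fun A β => (A, β) ∈ G.P := by
    ext u v
    constructor
    · rintro ⟨p, hp, x, y, rfl, rfl⟩
      exact ⟨p.1, p.2, x, y, hp, by simp, rfl⟩
    · rintro ⟨A, β, x, y, hp, rfl, rfl⟩
      exact ⟨(A, β), hp, x, y, by simp, rfl⟩
  ext w
  rw [Grammar.lang, this]
  exact der_iff_steps.symm

theorem exists_inv {s : Finset ℕ} {σ : ℕ → Finset ℕ}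
    (h : ∀ A ∈ s, ∀ B ∈ s, A ≠ B → Disjoint (σ A) (σ B)) :
    ∃ τ : ℕ → ℕ, ∀ A ∈ s, ∀ B ∈ σ A, τ B = A := by
  classical
  refine ⟨fun B => if h : ∃ A ∈ s, B ∈ σ A then h.choose else 0, fun A hA B hB => ?_⟩
  have h1 : ∃ A ∈ s, B ∈ σ A := ⟨A, hA, hB⟩
  simp only [dif_pos h1]
  by_contra h2
  exact Finset.disjoint_left.1 (h _ h1.choose_spec.1 _ hA h2) h1.choose_spec.2 hB

theorem fam_of_interp {G : Grammar} {L : Set (List ℕ)} (h : L ∈ family G) :
    ∃ τ, FamT (fun A β => (A, β) ∈ G.P) G.S τ L := by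
  obtain ⟨G', ⟨σN, σT, -, -, h3, h4, h5, h6, h7, h8⟩, rfl⟩ := h
  obtain ⟨τN, hN⟩ := exists_inv h3
  obtain ⟨τT, hT⟩ := exists_inv h4
  refine ⟨τT, ℕ, inferInstance, fun A β => (A, β) ∈ G'.P, G'.S, τN,
    Sum.inl '' (G'.N : Set ℕ) ∪ Sum.inr '' (G'.T : Set ℕ),
    (G'.N.finite_toSet.image _).union (G'.T.finite_toSet.image _), hN _ G.start_mem _ h7, ?_,
    lang_eq G'⟩
  intro A β hp
  obtain ⟨h9, -, h10, h11⟩ := G'.wf _ hp
  refine ⟨?_, Or.inl ⟨A, h9, rfl⟩, fun x hx => ?_⟩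
  · obtain ⟨p, hp', h12, h13⟩ := h8 _ hp
    obtain ⟨h14, -, h15, h16⟩ := G.wf _ hp'
    have h17 : ∀ (β γ : List (ℕ ⊕ ℕ)), (∀ A, Sum.inl A ∈ γ → A ∈ G.N) →
        (∀ a, Sum.inr a ∈ γ → a ∈ G.T) →
        List.Forall₂ (Sum.LiftRel (fun B A => B ∈ σN A) (fun b a => b ∈ σT a)) β γ →
        β.map (Sum.map τN τT) = γ := by
      intro β γ h1 h2 h
      induction h with
      | nil => rfl
      | cons h _ ih =>
        rw [List.map_cons, ih (fun A hA => h1 A (List.mem_cons_of_mem _ hA))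
          fun A hA => h2 A (List.mem_cons_of_mem _ hA)]
        cases h with
        | inl h => rw [Sum.map_inl, hN _ (h1 _ (by simp)) _ h]
        | inr h => rw [Sum.map_inr, hT _ (h2 _ (by simp)) _ h]
    rw [h17 _ _ h15 h16 h13, hN _ h14 _ h12]
    exact hp'
  · rcases x with x | x
    · exact Or.inl ⟨x, h10 x hx, rfl⟩
    · exact Or.inr ⟨x, h11 x hx, rfl⟩

theorem finite_lists {X : Type} {F : Set X} (hF : F.Finite) (n : ℕ) :
    {l : List X | l.length ≤ n ∧ ∀ x ∈ l, x ∈ F}.Finite := by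
  have := hF.to_subtype
  refine ((List.finite_length_le F n).image (List.map Subtype.val)).subset ?_
  rintro l ⟨h1, h2⟩
  exact ⟨l.pmap Subtype.mk h2, by simpa using h1, by simp [List.map_pmap]⟩

theorem interp_of_fam {G : Grammar} {L : Set (List ℕ)} {τT : ℕ → ℕ}
    (h : FamT (fun A β => (A, β) ∈ G.P) G.S τT L) : L ∈ family G := by
  classical
  obtain ⟨N, _, P, S', τN, F, hF, hS, hP, rfl⟩ := h
  obtain ⟨e, he⟩ := exists_injective_nat N
  obtain ⟨n, hn⟩ := (G.P.finite_toSet.image fun p => p.2.length).bddAbove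
  have hFN : (insert S' (Sum.inl ⁻¹' F)).Finite := (hF.preimage Sum.inl_injective.injOn).insert _
  have hFT : (Sum.inr ⁻¹' F).Finite := hF.preimage Sum.inr_injective.injOn
  obtain ⟨M, hM⟩ := hFT.bddAbove
  have hfin : {p : N × List (N ⊕ ℕ) | P p.1 p.2}.Finite := by
    refine (hFN.prod (finite_lists hF n)).subset fun p hp => ?_
    obtain ⟨h1, h2, h3⟩ := hP _ _ hp
    exact ⟨Or.inr h2, by simpa using hn ⟨_, h1, rfl⟩, h3⟩
  let f : N → ℕ := fun B => 2 * e B
  have hf : Function.Injective f := fun B C h => he (by simp only [f] at h; omega)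
  let σN : ℕ → Finset ℕ := fun A =>
    insert (2 * A + 1) ((hFN.toFinset.filter fun B => τN B = A).image f)
  let σT : ℕ → Finset ℕ := fun a => insert (M + 1 + a) (hFT.toFinset.filter fun c => τT c = a)
  have hσN : ∀ B, B = S' ∨ Sum.inl B ∈ F → f B ∈ σN (τN B) := fun B hB =>
    Finset.mem_insert_of_mem (Finset.mem_image_of_mem _ (by simpa using hB))
  have hσT : ∀ c, Sum.inr c ∈ F → c ∈ σT (τT c) := fun c hc =>
    Finset.mem_insert_of_mem (by simpa using hc)
  obtain ⟨a1, ha1⟩ := G.T_nonempty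
  let G' : Grammar :=
    { N := G.N.biUnion σN
      T := G.T.biUnion σT
      P := hfin.toFinset.image fun p => (f p.1, p.2.map (Sum.map f id))
      S := f S'
      start_mem := Finset.mem_biUnion.2 ⟨_, G.start_mem, hS ▸ hσN S' (Or.inl rfl)⟩
      T_nonempty := ⟨_, Finset.mem_biUnion.2 ⟨a1, ha1, Finset.mem_insert_self _ _⟩⟩
      wf := by
        intro p hp
        obtain ⟨⟨A, β⟩, h1, rfl⟩ := Finset.mem_image.1 hp
        obtain ⟨h2, h3, h4⟩ := hP A β (by simpa using h1)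
        obtain ⟨h5, h6, h7, h8⟩ := G.wf _ h2
        refine ⟨Finset.mem_biUnion.2 ⟨_, h5, hσN _ (Or.inr h3)⟩, by simpa using h6, ?_, ?_⟩
        · intro B hB
          obtain ⟨x, hx, h9⟩ := List.mem_map.1 hB
          rcases x with x | x
          · obtain rfl : f x = B := by simpa using h9
            exact Finset.mem_biUnion.2 ⟨_, h7 (τN x) (List.mem_map.2 ⟨_, hx, rfl⟩),
              hσN _ (Or.inr (h4 _ hx))⟩
          · simp at h9
        · intro B hB
          obtain ⟨x, hx, h9⟩ := List.mem_map.1 hB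
          rcases x with x | x
          · simp at h9
          · obtain rfl : x = B := by simpa using h9
            exact Finset.mem_biUnion.2 ⟨_, h8 (τT x) (List.mem_map.2 ⟨_, hx, rfl⟩),
              hσT _ (h4 _ hx)⟩ }
  refine ⟨G', ⟨σN, σT, fun A _ => Finset.insert_nonempty _ _, fun A _ => Finset.insert_nonempty _ _,
    ?_, ?_, rfl, rfl, hS ▸ hσN S' (Or.inl rfl), ?_⟩, ?_⟩
  · intro A _ B _ hAB
    refine Finset.disjoint_left.2 fun x h1 h2 => hAB ?_
    simp only [σN, Finset.mem_insert, Finset.mem_image, Finset.mem_filter] at h1 h2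
    rcases h1 with rfl | ⟨y, ⟨-, rfl⟩, rfl⟩ <;> rcases h2 with h2 | ⟨z, ⟨-, rfl⟩, h2⟩
    · omega
    · simp only [f] at h2; omega
    · simp only [f] at h2; omega
    · rw [hf h2]
  · intro A _ B _ hAB
    refine Finset.disjoint_left.2 fun x h1 h2 => hAB ?_
    simp only [σT, Finset.mem_insert, Finset.mem_filter, Set.Finite.mem_toFinset] at h1 h2
    rcases h1 with rfl | ⟨h1, rfl⟩ <;> rcases h2 with h2 | ⟨h2, rfl⟩
    · omega
    · have := hM h2; omega
    · have := hM h1; omega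
    · rfl
  · intro p hp
    obtain ⟨⟨A, β⟩, h1, rfl⟩ := Finset.mem_image.1 hp
    obtain ⟨h2, h3, h4⟩ := hP A β (by simpa using h1)
    refine ⟨_, h2, hσN _ (Or.inr h3), ?_⟩
    simp only [List.forall₂_map_left_iff, List.forall₂_map_right_iff, List.forall₂_same]
    intro x hx
    rcases x with x | x
    · exact Sum.LiftRel.inl (hσN _ (Or.inr (h4 _ hx)))
    · exact Sum.LiftRel.inr (hσT _ (h4 _ hx))
  · rw [lang_eq]
    ext w
    constructor
    · intro h
      exact Der.map f (fun A β h => Finset.mem_image.2 ⟨(A, β), by simpa using h, rfl⟩) h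
    · intro h
      refine Der.comap f (fun A β' h => ?_) h [Sum.inl S'] rfl
      obtain ⟨⟨B, β⟩, h1, h2⟩ := Finset.mem_image.1 h
      simp only [Prod.mk.injEq] at h2
      obtain rfl := hf h2.1
      exact ⟨β, by simpa using h1, h2.2.symm⟩

theorem result : ∀ G : Grammar, G.T.card = 1 → IsUnaryComplete (family G) := by
  intro G hG
  refine ⟨⟨G, rfl⟩, fun G' _ h => ?_⟩
  obtain ⟨a, ha⟩ := Finset.card_eq_one.1 hG
  obtain ⟨a0, h1, h2⟩ := core (Q := fun A β => (A, β) ∈ G.P) (S := G.S)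
    (Q' := fun A β => (A, β) ∈ G'.P) (S' := G'.S) (a := a) G'.T_nonempty
    (fun A β h => ⟨(G.wf _ h).2.1, fun b hb => by simpa [ha] using (G.wf _ h).2.2.2 b hb⟩)
    (fun A β h => ⟨(G'.wf _ h).2.1, (G'.wf _ h).2.2.2⟩)
    (fun L ⟨τ, hL⟩ => fam_of_interp (h ▸ interp_of_fam hL))
  refine ⟨a0, h1, Set.Subset.antisymm (fun L hL => ?_) fun L hL => ?_⟩
  · obtain ⟨τ, hτ⟩ := fam_of_interp hL
    rw [← h]
    exact interp_of_fam (hτ.mono fun A β h => (Finset.mem_filter.1 h).1)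
  · obtain ⟨τ, hτ⟩ := h2 L (fam_of_interp hL)
    refine interp_of_fam (G := restrict G' a0) (hτ.mono fun A β h => ?_)
    refine Finset.mem_filter.2 ⟨h.1, fun x hx h' => ?_⟩
    rcases x with x | x
    · simp at h'
    · rw [h.2 x hx]

end Pool.Agent.Results.MP_8f9e48_lc.UnaryComplete
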